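import Pool.Agent.Helper52.KP.StF
import Pool.Agent.Helper16.KP.M_NUL

/-!
# Project KP, module FF3: the functions `X`, `Y`, `Q`, `p₁` of the cone of the orbit
-/

set_option autoImplicit false

namespace Pool.Agent.Helper83.KP

open Pool.Agent.Helper52.KP Pool.Agent.Helper67.NO MeasureTheory Filter
open scoped ContDiff ComplexOrder Topology

universe u

section

variable {g : Type u} [LieRing g] [LieAlgebra ℂ g] [FiniteDimensional ℂ g]

theorem co_smul (c : ℂ) (x : g) (i) : co (c • x) i = c * co x i := by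
  simp [co]

theorem co_sum (x : g) : ∑ l, co x l • (Module.finBasis ℂ g) l = x :=
  (Module.finBasis ℂ g).sum_repr x

theorem size_eq (x : g) : size x = ∑ i, ‖co x i‖ := rfl

theorem size_pos {x : g} (hx : x ≠ 0) : 0 < size x := by
  rw [size_eq]
  by_contra hcon
  have h0 : ∑ i, ‖co x i‖ = 0 :=
    le_antisymm (not_lt.mp hcon) (Finset.sum_nonneg fun i _ => norm_nonneg _)
  have h1 := (Finset.sum_eq_zero_iff_of_nonneg fun i _ => norm_nonneg _).mp h0
  apply hx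
  rw [← co_sum x]
  refine Finset.sum_eq_zero fun i hi => ?_
  rw [norm_eq_zero.mp (h1 i hi), zero_smul]

theorem ext_eq {x₀ : g} (f : OO x₀ → ℂ) {x : g} (h : Orb x₀ x) : ext f x = f ⟨x, h⟩ := by
  simp [ext, h]

theorem lin_eval {x₀ : g} (C : Ch x₀) (y : g →ₗ[ℂ] ℂ) (z : Fin C.m → ℂ) :
    MvPolynomial.eval z (C.lin y) = y (C.Φ z) := by
  conv_rhs => rw [← co_sum (C.Φ z)]
  rw [map_sum, Ch.lin, map_sum]
  refine Finset.sum_congr rfl fun i _ => ?_
  rw [map_mul, MvPolynomial.eval_C, ← C.pol_spec, map_smul, smul_eq_mul, mul_comm]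

/-- the entries of the matrix of `ad x` -/
theorem adM_eq (x : g) (a b) :
    LinearMap.toMatrix (Module.finBasis ℂ g) (Module.finBasis ℂ g)
      (LieAlgebra.ad ℂ g x : g →ₗ[ℂ] g) a b = ∑ l, co x l *
        LinearMap.toMatrix (Module.finBasis ℂ g) (Module.finBasis ℂ g)
          (LieAlgebra.ad ℂ g (Module.finBasis ℂ g l) : g →ₗ[ℂ] g) a b := by
  have h : (LieAlgebra.ad ℂ g x : g →ₗ[ℂ] g) = ∑ l, co x l •
      (LieAlgebra.ad ℂ g (Module.finBasis ℂ g l) : g →ₗ[ℂ] g) := by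
    conv_lhs => rw [← co_sum x]
    rw [map_sum]
    refine Finset.sum_congr rfl fun l _ => ?_
    rw [map_smul]
  rw [h, map_sum, Matrix.sum_apply]
  refine Finset.sum_congr rfl fun l _ => ?_
  rw [map_smul, Matrix.smul_apply, smul_eq_mul]

theorem min_eval {x₀ : g} (C : Ch x₀) (ab : (Fin C.m → Fin (Module.finrank ℂ g)) ×
    (Fin C.m → Fin (Module.finrank ℂ g))) (z : Fin C.m → ℂ) :
    MvPolynomial.eval z (C.min ab) = mnr ab.1 ab.2 (C.Φ z) := by
  rw [Ch.min, RingHom.map_det, mnr]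
  congr 1
  ext i j
  simp only [RingHom.mapMatrix_apply, Matrix.map_apply, Matrix.submatrix_apply]
  rw [adM_eq, Ch.adm, Matrix.sum_apply, map_sum]
  refine Finset.sum_congr rfl fun l _ => ?_
  rw [Matrix.smul_apply, smul_eq_mul, map_mul, Matrix.map_apply, MvPolynomial.eval_C, C.pol_spec]

theorem mnr_smul {m : ℕ} (a b : Fin m → Fin (Module.finrank ℂ g)) (c : ℂ) (x : g) :
    mnr a b (c • x) = c ^ m * mnr a b x := by
  rw [mnr, mnr]
  have h : (LinearMap.toMatrix (Module.finBasis ℂ g) (Module.finBasis ℂ g)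
      (LieAlgebra.ad ℂ g (c • x) : g →ₗ[ℂ] g)).submatrix a b =
      c • (LinearMap.toMatrix (Module.finBasis ℂ g) (Module.finBasis ℂ g)
      (LieAlgebra.ad ℂ g x : g →ₗ[ℂ] g)).submatrix a b := by
    ext i j
    simp only [Matrix.submatrix_apply, Matrix.smul_apply, smul_eq_mul]
    rw [adM_eq, adM_eq x, Finset.mul_sum]
    refine Finset.sum_congr rfl fun l _ => ?_
    rw [co_smul, mul_assoc]
  rw [h, Matrix.det_smul, Fintype.card_fin]

theorem mnr_diff {m p : ℕ} (a b : Fin m → Fin (Module.finrank ℂ g)) (Ψ : (Fin p → ℂ) → g)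
    (hΨ : ∀ i, Differentiable ℂ fun w => co (Ψ w) i) :
    Differentiable ℂ fun w => mnr a b (Ψ w) := by
  have h : ∀ (i j : Fin (Module.finrank ℂ g)), Differentiable ℂ fun w =>
      LinearMap.toMatrix (Module.finBasis ℂ g) (Module.finBasis ℂ g)
        (LieAlgebra.ad ℂ g (Ψ w) : g →ₗ[ℂ] g) i j := by
    intro i j
    have e : (fun w => LinearMap.toMatrix (Module.finBasis ℂ g) (Module.finBasis ℂ g)
        (LieAlgebra.ad ℂ g (Ψ w) : g →ₗ[ℂ] g) i j) = fun w => ∑ l, co (Ψ w) l *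
        LinearMap.toMatrix (Module.finBasis ℂ g) (Module.finBasis ℂ g)
          (LieAlgebra.ad ℂ g (Module.finBasis ℂ g l) : g →ₗ[ℂ] g) i j := by
      funext w
      exact adM_eq (Ψ w) i j
    rw [e]
    exact Differentiable.fun_sum fun l _ => (hΨ l).mul_const _
  simp only [mnr, Matrix.det_apply', Matrix.submatrix_apply]
  refine Differentiable.fun_sum fun σ _ => ?_
  refine Differentiable.const_mul ?_ _
  intro w
  exact (HasFDerivAt.finsetProd (u := Finset.univ)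
    (fun i _ => (h (a (σ i)) (b i) w).hasFDerivAt)).differentiableAt

end

theorem hFF3 (hHPO : StHPO.{u}) (hORB : StORB.{u}) (hCLO : StCLO.{u}) (hFF1 : StFF1.{u})
    (hNUD : StNUD.{u}) : StFF3.{u} := by
  intro g _ _ _ _ x₀ hx₀ hnil C ρ y rd hHD K hK
  obtain ⟨o1, o2, o3, o4, o5, o6, o7⟩ := hORB g
  have hcoo : ∀ (x : g) (k : ℕ) (X : Fin k → g) (i),
      Differentiable ℂ fun w : Fin k → ℂ => co (chart x X w) i := by
    intro x k X i
    have h := (o4 k x X).1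
    rw [HolMap, differentiableOn_univ, differentiable_pi] at h
    exact h i
  have hne : ∀ x : g, Orb x₀ x → x ≠ 0 := by
    intro x hx
    induction hx with
    | base => exact hx₀
    | step y x _ ih =>
      intro h0
      have h1 := (o1 x y y).2.1
      rw [h0, map_zero] at h1
      exact ih h1.symm
  have hden : Dense {z : Fin C.m → ℂ | MvPolynomial.eval z C.Δ ≠ 0} := by
    have h := Pool.Agent.Helper16.KP.hNUL C.m C.Δ C.Δ0
    exact Measure.dense_of_ae (μ := volume) (ae_iff.mpr (by simpa [ev] using h))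
  obtain ⟨f1, f2, f3, f4, f5⟩ := hFF1 g x₀ hx₀ hnil C ρ y rd K hK
  subst hK
  have hpoly : ∀ k, ∀ f ∈ Hol x₀ k, ∃ P : MvPolynomial (Fin C.m) ℂ,
      (∀ z, MvPolynomial.eval z C.Δ ≠ 0 → MvPolynomial.eval z P = ext f (C.Φ z)) ∧
      ∃ B : ℝ, ∀ z, ‖MvPolynomial.eval z P‖ ≤
        B * (∑ i, ‖MvPolynomial.eval z (C.pol i)‖) ^ k := fun k f hf =>
    hHPO g x₀ hx₀ hnil C k f hf (hHD.bdd k f hf)
  have hP1 : ∀ z, MvPolynomial.eval z C.Δ ≠ 0 →
      MvPolynomial.eval z C.P₁ = ext C.p₁ (C.Φ z) := by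
    have hex : ∃ P : MvPolynomial (Fin C.m) ℂ, ∀ z, MvPolynomial.eval z C.Δ ≠ 0 →
        MvPolynomial.eval z P = ext C.p₁ (C.Φ z) := by
      obtain ⟨P, hP, _⟩ := hpoly C.d₁ C.p₁ C.p1mem
      exact ⟨P, hP⟩
    rw [Ch.P₁, dif_pos hex]
    exact hex.choose_spec
  have hlin : ∀ l : g →ₗ[ℂ] ℂ, C.lin l ∈ C.RR 1 := by
    intro l
    refine ⟨fun x => l x.1, ⟨fun x k X => ?_, fun x x' c _ hx => ?_⟩, fun z hz => ?_⟩
    · have : (fun w : Fin k → ℂ => l (chart x.1 X w)) = fun w => ∑ i, co (chart x.1 X w) i *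
          l (Module.finBasis ℂ g i) := by
        funext w
        conv_lhs => rw [← co_sum (chart x.1 X w)]
        rw [map_sum]
        refine Finset.sum_congr rfl fun i _ => ?_
        rw [map_smul, smul_eq_mul]
      rw [this]
      exact Differentiable.fun_sum fun i _ => (hcoo x.1 k X i).mul_const _
    · show l x'.1 = c ^ 1 * l x.1
      rw [hx, map_smul, smul_eq_mul, pow_one]
    · rw [lin_eval, ext_eq _ (C.orb z hz)]
  have a1 : ∀ i, C.pol i ∈ C.RR 1 := by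
    intro i
    refine ⟨fun x => co x.1 i, ⟨fun x k X => hcoo x.1 k X i, fun x x' c _ hx => ?_⟩,
      fun z hz => ?_⟩
    · show co x'.1 i = c ^ 1 * co x.1 i
      rw [hx, pow_one, co_smul]
    · rw [ext_eq _ (C.orb z hz)]
      exact (C.pol_spec i z).symm
  have hsz : ∀ z, ∑ i, ‖MvPolynomial.eval z (C.pol i)‖ = size (C.Φ z) := by
    intro z
    rw [size_eq]
    exact Finset.sum_congr rfl fun i _ => congrArg _ (C.pol_spec i z).symm
  have a2 : ∀ z, MvPolynomial.eval z C.Δ ≠ 0 → 0 < ∑ i, ‖MvPolynomial.eval z (C.pol i)‖ := by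
    intro z hz
    rw [hsz]
    exact size_pos (hne _ (C.orb z hz))
  have a3 : ∀ k, ∀ P ∈ C.RR k, ∃ B : ℝ, ∀ z, ‖MvPolynomial.eval z P‖ ≤
      B * (∑ i, ‖MvPolynomial.eval z (C.pol i)‖) ^ k := by
    rintro k P ⟨f, hf, hfP⟩
    obtain ⟨P', hP', B, hB⟩ := hpoly k f hf
    have hPP : P = P' := f5 P P' fun z hz => (hfP z hz).trans (hP' z hz).symm
    exact ⟨B, fun z => by rw [hPP]; exact hB z⟩
  have a5 : ∀ z, MvPolynomial.eval z C.Δ ≠ 0 → MvPolynomial.eval z C.P₁ ≠ 0 := by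
    intro z hz
    rw [hP1 z hz, ext_eq _ (C.orb z hz)]
    exact (C.p1 ⟨C.Φ z, C.orb z hz⟩).mpr ⟨z, hz, rfl⟩
  have a6 : ∀ j, ∃ a : ℕ, MvPolynomial.X j * C.P₁ ^ a ∈ C.RR (a * C.d₁ + C.w j) := by
    intro j
    obtain ⟨a, f, hf, h⟩ := C.crd j
    refine ⟨a, f, hf, fun z hz => ?_⟩
    rw [map_mul, map_pow, MvPolynomial.eval_X, hP1 z hz, h z hz]
  have a7 : ∀ ab : (Fin C.m → Fin (Module.finrank ℂ g)) × (Fin C.m → Fin (Module.finrank ℂ g)),
      C.min ab ∈ C.RR C.m := by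
    intro ab
    refine ⟨fun x => mnr ab.1 ab.2 x.1,
      ⟨fun x k X => mnr_diff _ _ _ fun i => hcoo x.1 k X i, fun x x' c _ hx => ?_⟩,
      fun z hz => ?_⟩
    · show mnr _ _ x'.1 = c ^ C.m * mnr _ _ x.1
      rw [hx, mnr_smul]
    · rw [ext_eq _ (C.orb z hz)]
      exact min_eval C _ z
  have a8 : ∀ z, MvPolynomial.eval z C.Δ ≠ 0 → ∃ ab, MvPolynomial.eval z (C.min ab) ≠ 0 := by
    intro z hz
    have h := (hCLO g x₀ hx₀ hnil).1 (C.Φ z) (C.orb z hz)
    rw [← C.hrk, mns] at h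
    obtain ⟨a, -, ha⟩ := Finset.exists_ne_zero_of_sum_ne_zero h.ne'
    obtain ⟨b, -, hb⟩ := Finset.exists_ne_zero_of_sum_ne_zero ha
    refine ⟨(a, b), ?_⟩
    rw [min_eval]
    exact norm_ne_zero_iff.mp hb
  have a10 : ∃ a : ℝ, 0 < a ∧ ∀ z, a * ∑ i, ‖MvPolynomial.eval z (C.pol i)‖ ≤
      ∑ i, ‖MvPolynomial.eval z (C.lin (y i))‖ := by
    obtain ⟨a, ha, h⟩ := hHD.ybd
    refine ⟨a, ha, fun z => ?_⟩
    have hcl : IsClosed {z : Fin C.m → ℂ | a * ∑ i, ‖MvPolynomial.eval z (C.pol i)‖ ≤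
        ∑ i, ‖MvPolynomial.eval z (C.lin (y i))‖} := by
      refine isClosed_le ?_ ?_
      · exact continuous_const.mul (continuous_finsetSum _ fun i _ =>
          (MvPolynomial.continuous_eval _).norm)
      · exact continuous_finsetSum _ fun i _ => (MvPolynomial.continuous_eval _).norm
    have hsub : {z : Fin C.m → ℂ | MvPolynomial.eval z C.Δ ≠ 0} ⊆
        {z : Fin C.m → ℂ | a * ∑ i, ‖MvPolynomial.eval z (C.pol i)‖ ≤
        ∑ i, ‖MvPolynomial.eval z (C.lin (y i))‖} := by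
      intro z hz
      have h1 := h (C.Φ z) (C.orb z hz)
      simp only [Set.mem_ofPred_eq, lin_eval]
      rw [hsz]
      exact h1
    have hz : z ∈ closure {z : Fin C.m → ℂ | MvPolynomial.eval z C.Δ ≠ 0} := hden z
    exact closure_minimal hsub hcl hz
  have a11 : ∀ᵐ v : Fin C.m → ℂ, {z : Fin C.m → ℂ | MvPolynomial.eval z C.Δ ≠ 0 ∧
      ∀ i, MvPolynomial.eval z (C.lin (y i)) = v i}.ncard = rd := by
    have hc := hHD.card
    have hn : ∀ᵐ v : Fin C.m → ℂ, ¬ ∃ x : OO x₀, C.p₁ x = 0 ∧ ∀ i, y i x.1 = v i := by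
      rw [ae_iff]
      simpa only [not_not] using hNUD g x₀ hx₀ hnil C y
    filter_upwards [hc, hn] with v h1 h2
    rw [← h1]
    have himg : C.Φ '' {z : Fin C.m → ℂ | MvPolynomial.eval z C.Δ ≠ 0 ∧
        ∀ i, MvPolynomial.eval z (C.lin (y i)) = v i} = {x : g | Orb x₀ x ∧ ∀ i, y i x = v i} := by
      ext x
      constructor
      · rintro ⟨z, ⟨hz, hy⟩, rfl⟩
        exact ⟨C.orb z hz, fun i => by rw [← lin_eval]; exact hy i⟩
      · rintro ⟨hx, hy⟩
        have hp : C.p₁ ⟨x, hx⟩ ≠ 0 := fun h0 => h2 ⟨⟨x, hx⟩, h0, hy⟩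
        obtain ⟨z, hz, hzx⟩ := (C.p1 ⟨x, hx⟩).mp hp
        refine ⟨z, ⟨hz, fun i => ?_⟩, hzx⟩
        rw [lin_eval, hzx]; exact hy i
    rw [← himg, Set.InjOn.ncard_image]
    intro z hz z' hz' h
    exact C.inj z z' hz.1 hz'.1 h
  refine ⟨a1, a2, a3, ⟨C.p₁, C.p1mem, hP1⟩, a5, a6, fun i => a7 _, fun z hz => ?_,
    fun i => hlin (y i), a10, a11⟩
  obtain ⟨ab, hab⟩ := a8 z hz
  refine ⟨Fintype.equivFin _ ab, ?_⟩
  have e : (mkCone C ρ y rd).Q (Fintype.equivFin _ ab) = C.min ab :=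
    congrArg C.min (Equiv.symm_apply_apply _ ab)
  rw [e]
  exact hab

end Pool.Agent.Helper83.KP
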